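import Pool.Agent.H671R2.CK.Final

/-!
# CONVEX SET IN 3D has no polynomial kernel unless `coNP ⊆ NP/poly`
-/

set_option autoImplicit false

namespace Pool.Agent.Results.MP_e4fe5e_lc.NoPolynomialKernel

open Pool.Agent.CK

/-- If CONVEX SET IN 3D, parameterized by the number `k` of points in convex position, has a kernel
with polynomially many points, then `coNP ⊆ NP/poly`. -/
theorem result : HasPolyKernel → CoNPSubsetNPPoly := main

end Pool.Agent.Results.MP_e4fe5e_lc.NoPolynomialKernel
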